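import Pool.Agent.Helper81.XP.StA

set_option autoImplicit false

/-!
XP, module PTH: paths of length three in dense bipartite graphs.
-/

namespace Pool.Agent.Helper71.XP

open Finset

section

open Classical

variable {α β : Type} (R : α → β → Prop)

/-- double counting of the edges -/
theorem pth_dc (A : Finset α) (B : Finset β) :
    ∑ a ∈ A, ((B.filter fun b => R a b).card : ℝ) =
      ∑ b ∈ B, ((A.filter fun a => R a b).card : ℝ) := by
  simp only [Finset.card_filter, Nat.cast_sum]
  exact Finset.sum_comm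

/-- few common neighbours -/
noncomputable def pthOm (A : Finset α) (B : Finset β) (c : ℝ) : Finset (α × α) :=
  (A ×ˢ A).filter fun p => ((B.filter fun b => R p.1 b ∧ R p.2 b).card : ℝ) < c

/-- paths of length two -/
theorem pth_two (A : Finset α) (B : Finset β) (δ ε : ℝ) (hδ : 0 < δ) (hε : 0 < ε)
    (hB : B.Nonempty)
    (he : δ * A.card * B.card ≤ ∑ b ∈ B, ((A.filter fun a => R a b).card : ℝ)) :
    ∃ b ∈ B, δ ^ 2 * (A.card : ℝ) ^ 2 / 2 ≤ ((A.filter fun a => R a b).card : ℝ) ^ 2 ∧
      (((pthOm R A B (ε / 2 * δ ^ 2 * B.card)).filter fun p => R p.1 b ∧ R p.2 b).card : ℝ) ≤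
        ε * ((A.filter fun a => R a b).card : ℝ) ^ 2 := by
  have hBc : (0 : ℝ) < B.card := by exact_mod_cast hB.card_pos
  set Om := pthOm R A B (ε / 2 * δ ^ 2 * B.card) with hOm
  set N : β → ℝ := fun b => ((A.filter fun a => R a b).card : ℝ) with hN
  have h1 : δ ^ 2 * (A.card : ℝ) ^ 2 * B.card ≤ ∑ b ∈ B, N b ^ 2 := by
    have hcs := Finset.sum_mul_sq_le_sq_mul_sq B (fun _ => (1 : ℝ)) N
    simp only [one_mul, one_pow, Finset.sum_const, nsmul_eq_mul, mul_one] at hcs
    have h2 : (δ * A.card * B.card) ^ 2 ≤ (∑ b ∈ B, N b) ^ 2 := by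
      apply pow_le_pow_left₀ _ he
      positivity
    have h3 : (B.card : ℝ) * (δ ^ 2 * (A.card : ℝ) ^ 2 * B.card) ≤
        B.card * ∑ b ∈ B, N b ^ 2 := by
      calc (B.card : ℝ) * (δ ^ 2 * (A.card : ℝ) ^ 2 * B.card) = (δ * A.card * B.card) ^ 2 := by
            ring
        _ ≤ _ := h2.trans hcs
    exact le_of_mul_le_mul_left h3 hBc
  have h2 : ∑ b ∈ B, ((Om.filter fun p => R p.1 b ∧ R p.2 b).card : ℝ) ≤
      ε / 2 * δ ^ 2 * B.card * (A.card : ℝ) ^ 2 := by
    have e1 : ∑ b ∈ B, ((Om.filter fun p => R p.1 b ∧ R p.2 b).card : ℝ) =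
        ∑ p ∈ Om, ((B.filter fun b => R p.1 b ∧ R p.2 b).card : ℝ) := by
      simp only [Finset.card_filter, Nat.cast_sum]
      exact Finset.sum_comm
    rw [e1]
    have e2 : ∑ p ∈ Om, ((B.filter fun b => R p.1 b ∧ R p.2 b).card : ℝ) ≤
        ∑ _p ∈ Om, ε / 2 * δ ^ 2 * B.card := by
      apply Finset.sum_le_sum
      intro p hp
      rw [hOm, pthOm, Finset.mem_filter] at hp
      exact hp.2.le
    refine e2.trans ?_
    rw [Finset.sum_const, nsmul_eq_mul, mul_comm]
    apply mul_le_mul_of_nonneg_left _ (by positivity)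
    have e3 : Om.card ≤ A.card * A.card := by
      rw [← Finset.card_product]
      exact Finset.card_filter_le _ _
    have e4 : (Om.card : ℝ) ≤ A.card * A.card := by exact_mod_cast e3
    nlinarith
  have h3 : ∃ b ∈ B, δ ^ 2 * (A.card : ℝ) ^ 2 / 2 ≤
      N b ^ 2 - ((Om.filter fun p => R p.1 b ∧ R p.2 b).card : ℝ) / ε := by
    by_contra hcon
    push Not at hcon
    have h4 := Finset.sum_lt_sum_of_nonempty hB hcon
    rw [Finset.sum_sub_distrib, ← Finset.sum_div, Finset.sum_const, nsmul_eq_mul] at h4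
    have h5 : (∑ b ∈ B, ((Om.filter fun p => R p.1 b ∧ R p.2 b).card : ℝ)) / ε ≤
        δ ^ 2 / 2 * B.card * (A.card : ℝ) ^ 2 := by
      rw [div_le_iff₀ hε]
      refine h2.trans (le_of_eq ?_)
      ring
    have h6 : (B.card : ℝ) * (δ ^ 2 * (A.card : ℝ) ^ 2 / 2) =
        δ ^ 2 / 2 * B.card * (A.card : ℝ) ^ 2 := by ring
    linarith
  obtain ⟨b, hb, h4⟩ := h3
  refine ⟨b, hb, ?_, ?_⟩
  · have : 0 ≤ ((Om.filter fun p => R p.1 b ∧ R p.2 b).card : ℝ) / ε := by positivity
    linarith
  · have h5 : ((Om.filter fun p => R p.1 b ∧ R p.2 b).card : ℝ) / ε ≤ N b ^ 2 := by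
      have : 0 ≤ δ ^ 2 * (A.card : ℝ) ^ 2 / 2 := by positivity
      linarith
    rw [div_le_iff₀ hε] at h5
    linarith

/-- many paths of length three -/
theorem pth_main (A : Finset α) (B : Finset β) (δ : ℝ) (hδ : 0 < δ) (_hδ1 : δ ≤ 1)
    (hA : A.Nonempty) (hB : B.Nonempty)
    (he : δ * A.card * B.card ≤ ∑ a ∈ A, ((B.filter fun b => R a b).card : ℝ)) :
    ∃ A' ⊆ A, ∃ B' ⊆ B, δ ^ 2 / 16 * A.card ≤ A'.card ∧ δ / 4 * B.card ≤ B'.card ∧
      ∀ a ∈ A', ∀ b ∈ B', δ ^ 6 / 8192 * (A.card * B.card) ≤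
        (((B ×ˢ A).filter fun q => R a q.1 ∧ R q.2 q.1 ∧ R q.2 b).card : ℝ) := by
  have hAc : (0 : ℝ) < A.card := by exact_mod_cast hA.card_pos
  have hBc : (0 : ℝ) < B.card := by exact_mod_cast hB.card_pos
  set dg : α → ℝ := fun a => ((B.filter fun b => R a b).card : ℝ) with hdg
  have hdgB : ∀ a, dg a ≤ B.card := fun a =>
    Nat.cast_le.mpr (Finset.card_filter_le _ _)
  set A1 := A.filter fun a => δ / 2 * B.card ≤ dg a with hA1
  have hA1A : A1 ⊆ A := Finset.filter_subset _ _
  have e1 : δ / 2 * A.card * B.card ≤ ∑ a ∈ A1, dg a := by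
    have h1 : ∑ a ∈ A, dg a = ∑ a ∈ A1, dg a + ∑ a ∈ A.filter (fun a => ¬ δ / 2 * B.card ≤ dg a),
        dg a := (Finset.sum_filter_add_sum_filter_not A _ _).symm
    have h2 : ∑ a ∈ A.filter (fun a => ¬ δ / 2 * B.card ≤ dg a), dg a ≤
        A.card * (δ / 2 * B.card) := by
      calc ∑ a ∈ A.filter (fun a => ¬ δ / 2 * B.card ≤ dg a), dg a ≤
          ∑ _a ∈ A.filter (fun a => ¬ δ / 2 * B.card ≤ dg a), δ / 2 * B.card := by
            apply Finset.sum_le_sum
            intro a ha
            exact (not_le.mp (Finset.mem_filter.mp ha).2).le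
        _ = ((A.filter (fun a => ¬ δ / 2 * B.card ≤ dg a)).card : ℝ) * (δ / 2 * B.card) := by
            rw [Finset.sum_const, nsmul_eq_mul]
        _ ≤ _ := by
            apply mul_le_mul_of_nonneg_right _ (by positivity)
            exact_mod_cast Finset.card_filter_le _ _
    have h3 : A.card * (δ / 2 * B.card) = δ / 2 * A.card * B.card := by ring
    have h4 : δ * A.card * B.card = δ / 2 * A.card * B.card + δ / 2 * A.card * B.card := by ring
    linarith
  have e2 : δ / 2 * A.card ≤ A1.card := by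
    have h1 : ∑ a ∈ A1, dg a ≤ A1.card * B.card := by
      calc ∑ a ∈ A1, dg a ≤ ∑ _a ∈ A1, (B.card : ℝ) := Finset.sum_le_sum fun a _ => hdgB a
        _ = _ := by rw [Finset.sum_const, nsmul_eq_mul]
    exact le_of_mul_le_mul_right (e1.trans h1) hBc
  have hA1c : (0 : ℝ) < A1.card := lt_of_lt_of_le (by positivity) e2
  have e3 : δ / 2 * A1.card * B.card ≤ ∑ b ∈ B, ((A1.filter fun a => R a b).card : ℝ) := by
    rw [← pth_dc R A1 B]
    refine le_trans ?_ e1
    have : (A1.card : ℝ) ≤ A.card := by exact_mod_cast Finset.card_le_card hA1A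
    have h5 : 0 ≤ δ / 2 * (B.card : ℝ) := by positivity
    nlinarith
  obtain ⟨b0, hb0, f1, f2⟩ := pth_two R A1 B (δ / 2) (δ / 16) (by positivity) (by positivity) hB e3
  set A2 := A1.filter fun a => R a b0 with hA2
  have hA2A1 : A2 ⊆ A1 := Finset.filter_subset _ _
  set c : ℝ := δ / 16 / 2 * (δ / 2) ^ 2 * B.card with hc
  set bad : α → ℝ := fun a =>
    ((A2.filter fun a' => ((B.filter fun b => R a b ∧ R a' b).card : ℝ) < c).card : ℝ) with hbad
  have g1 : δ / 4 * A1.card ≤ A2.card := by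
    by_contra hcon
    push Not at hcon
    have h1 : (A2.card : ℝ) ^ 2 < (δ / 4 * A1.card) ^ 2 :=
      pow_lt_pow_left₀ hcon (Nat.cast_nonneg _) (by norm_num)
    have h2 : (δ / 4 * (A1.card : ℝ)) ^ 2 ≤ (δ / 2) ^ 2 * (A1.card : ℝ) ^ 2 / 2 := by
      have : 0 ≤ δ ^ 2 * (A1.card : ℝ) ^ 2 := by positivity
      nlinarith
    linarith
  have hA2c : (0 : ℝ) < A2.card := lt_of_lt_of_le (by positivity) g1
  have g2 : ∑ a ∈ A2, bad a ≤ δ / 16 * (A2.card : ℝ) ^ 2 := by
    refine le_trans (le_of_eq ?_) f2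
    have h1 : ((pthOm R A1 B c).filter fun p => R p.1 b0 ∧ R p.2 b0) =
        (A2 ×ˢ A2).filter fun p => ((B.filter fun b => R p.1 b ∧ R p.2 b).card : ℝ) < c := by
      ext ⟨a, a'⟩
      simp only [pthOm, hA2, Finset.mem_filter, Finset.mem_product]
      tauto
    rw [h1, hbad]
    simp only [Finset.card_filter, Nat.cast_sum]
    rw [Finset.sum_product]
  set A' := A2.filter fun a => bad a ≤ δ / 8 * A2.card with hA'
  have g3 : (A2.card : ℝ) / 2 ≤ A'.card := by
    have h1 : ((A2.filter fun a => ¬ bad a ≤ δ / 8 * A2.card).card : ℝ) *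
        (δ / 8 * A2.card) ≤ δ / 16 * (A2.card : ℝ) ^ 2 := by
      calc ((A2.filter fun a => ¬ bad a ≤ δ / 8 * A2.card).card : ℝ) * (δ / 8 * A2.card) =
          ∑ _a ∈ A2.filter (fun a => ¬ bad a ≤ δ / 8 * A2.card), (δ / 8 * A2.card) := by
            rw [Finset.sum_const, nsmul_eq_mul]
        _ ≤ ∑ a ∈ A2.filter (fun a => ¬ bad a ≤ δ / 8 * A2.card), bad a := by
            apply Finset.sum_le_sum
            intro a ha
            exact (not_le.mp (Finset.mem_filter.mp ha).2).le
        _ ≤ ∑ a ∈ A2, bad a := by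
            apply Finset.sum_le_sum_of_subset_of_nonneg (Finset.filter_subset _ _)
            intro a _ _
            exact Nat.cast_nonneg _
        _ ≤ _ := g2
    have h2 : ((A2.filter fun a => ¬ bad a ≤ δ / 8 * A2.card).card : ℝ) ≤ A2.card / 2 := by
      have h3 : (0 : ℝ) < δ / 8 * A2.card := by positivity
      refine le_of_mul_le_mul_right (h1.trans (le_of_eq ?_)) h3
      ring
    have h3 : ((A2.filter fun a => bad a ≤ δ / 8 * A2.card).card : ℝ) +
        ((A2.filter fun a => ¬ bad a ≤ δ / 8 * A2.card).card : ℝ) = A2.card := by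
      exact_mod_cast Finset.card_filter_add_card_filter_not (s := A2)
        (fun a => bad a ≤ δ / 8 * A2.card)
    linarith
  set B' := B.filter fun b => δ / 4 * A2.card ≤ ((A2.filter fun a => R a b).card : ℝ) with hB'
  have g4 : δ / 4 * B.card ≤ B'.card := by
    have h1 : δ / 2 * A2.card * B.card ≤ ∑ b ∈ B, ((A2.filter fun a => R a b).card : ℝ) := by
      rw [← pth_dc R A2 B]
      calc δ / 2 * A2.card * B.card = ∑ _a ∈ A2, δ / 2 * (B.card : ℝ) := by
            rw [Finset.sum_const, nsmul_eq_mul]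
            ring
        _ ≤ _ := by
            apply Finset.sum_le_sum
            intro a ha
            exact (Finset.mem_filter.mp (hA2A1 ha)).2
    have h2 : ∑ b ∈ B, ((A2.filter fun a => R a b).card : ℝ) ≤
        B'.card * A2.card + B.card * (δ / 4 * A2.card) := by
      rw [← Finset.sum_filter_add_sum_filter_not B
        (fun b => δ / 4 * A2.card ≤ ((A2.filter fun a => R a b).card : ℝ))]
      apply add_le_add
      · calc ∑ b ∈ B', ((A2.filter fun a => R a b).card : ℝ) ≤ ∑ _b ∈ B', (A2.card : ℝ) := by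
              apply Finset.sum_le_sum
              intro b _
              exact_mod_cast Finset.card_filter_le _ _
          _ = _ := by rw [Finset.sum_const, nsmul_eq_mul]
      · calc ∑ b ∈ B.filter (fun b => ¬ δ / 4 * A2.card ≤ ((A2.filter fun a => R a b).card : ℝ)),
              ((A2.filter fun a => R a b).card : ℝ) ≤
            ∑ _b ∈ B.filter (fun b => ¬ δ / 4 * A2.card ≤
              ((A2.filter fun a => R a b).card : ℝ)), (δ / 4 * A2.card) := by
              apply Finset.sum_le_sum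
              intro b hb
              exact (not_le.mp (Finset.mem_filter.mp hb).2).le
          _ = ((B.filter (fun b => ¬ δ / 4 * A2.card ≤
              ((A2.filter fun a => R a b).card : ℝ))).card : ℝ) * (δ / 4 * A2.card) := by
              rw [Finset.sum_const, nsmul_eq_mul]
          _ ≤ _ := by
              apply mul_le_mul_of_nonneg_right _ (by positivity)
              exact_mod_cast Finset.card_filter_le _ _
    have h3 : δ / 4 * B.card * A2.card ≤ B'.card * A2.card := by
      have h4 : δ / 2 * A2.card * B.card = δ / 4 * B.card * A2.card + B.card * (δ / 4 * A2.card) := by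
        ring
      linarith
    exact le_of_mul_le_mul_right h3 hA2c
  refine ⟨A', (Finset.filter_subset _ _).trans (hA2A1.trans hA1A), B', Finset.filter_subset _ _,
    ?_, g4, ?_⟩
  · have h1 : δ ^ 2 / 16 * A.card = δ / 4 * (δ / 2 * A.card) / 2 := by ring
    have h2 : δ / 4 * (δ / 2 * A.card) ≤ δ / 4 * A1.card :=
      mul_le_mul_of_nonneg_left e2 (by positivity)
    rw [h1]
    linarith
  · intro a ha b hb
    have k1 : bad a ≤ δ / 8 * A2.card := (Finset.mem_filter.mp ha).2
    have k2 : δ / 4 * A2.card ≤ ((A2.filter fun a' => R a' b).card : ℝ) :=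
      (Finset.mem_filter.mp hb).2
    set G := A2.filter fun a' => R a' b ∧
      ¬ ((B.filter fun b' => R a b' ∧ R a' b').card : ℝ) < c with hG
    have k3 : δ / 8 * A2.card ≤ G.card := by
      have h1 : (A2.filter fun a' => R a' b).card ≤ G.card +
          (A2.filter fun a' => ((B.filter fun b => R a b ∧ R a' b).card : ℝ) < c).card := by
        refine le_trans (Finset.card_le_card ?_) (Finset.card_union_le _ _)
        intro a' ha'
        have m1 : a' ∈ A2 := (Finset.mem_filter.mp ha').1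
        have m2 : R a' b := (Finset.mem_filter.mp ha').2
        by_cases h : ((B.filter fun b => R a b ∧ R a' b).card : ℝ) < c
        · exact Finset.mem_union_right _ (Finset.mem_filter.mpr ⟨m1, h⟩)
        · exact Finset.mem_union_left _ (Finset.mem_filter.mpr ⟨m1, m2, h⟩)
      have h2 : ((A2.filter fun a' => R a' b).card : ℝ) ≤ G.card +
          ((A2.filter fun a' => ((B.filter fun b => R a b ∧ R a' b).card : ℝ) < c).card : ℝ) := by
        exact_mod_cast h1
      have h3 : ((A2.filter fun a' => R a' b).card : ℝ) ≤ G.card + bad a := h2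
      linarith
    have k4 : (G.card : ℝ) * c ≤
        (((B ×ˢ A).filter fun q => R a q.1 ∧ R q.2 q.1 ∧ R q.2 b).card : ℝ) := by
      calc (G.card : ℝ) * c = ∑ _a' ∈ G, c := by rw [Finset.sum_const, nsmul_eq_mul]
        _ ≤ ∑ a' ∈ G, ((B.filter fun b' => R a b' ∧ R a' b').card : ℝ) := by
            apply Finset.sum_le_sum
            intro a' ha'
            exact not_lt.mp (Finset.mem_filter.mp ha').2.2
        _ = ((∑ a' ∈ G, (B.filter fun b' => R a b' ∧ R a' b').card : ℕ) : ℝ) := by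
            rw [Nat.cast_sum]
        _ = (((G.sigma fun a' => B.filter fun b' => R a b' ∧ R a' b').card : ℕ) : ℝ) := by
            rw [Finset.card_sigma]
        _ ≤ _ := by
            norm_cast
            refine Finset.card_le_card_of_injOn (fun z => (z.2, z.1)) ?_ ?_
            · intro z hz
              have m := Finset.mem_sigma.mp (Finset.mem_coe.mp hz)
              have m1 : z.1 ∈ A2 := (Finset.mem_filter.mp m.1).1
              have m2 : R z.1 b := (Finset.mem_filter.mp m.1).2.1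
              have m3 : z.2 ∈ B := (Finset.mem_filter.mp m.2).1
              have m4 : R a z.2 ∧ R z.1 z.2 := (Finset.mem_filter.mp m.2).2
              exact Finset.mem_coe.mpr (Finset.mem_filter.mpr
                ⟨Finset.mem_product.mpr ⟨m3, hA1A (hA2A1 m1)⟩, m4.1, m4.2, m2⟩)
            · rintro ⟨x, y⟩ _ ⟨x', y'⟩ _ h
              simp only [Prod.mk.injEq] at h
              obtain ⟨rfl, rfl⟩ := h
              rfl
    refine le_trans ?_ k4
    have k5 : δ ^ 2 / 8 * A.card ≤ A2.card := by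
      have h1 : δ ^ 2 / 8 * A.card = δ / 4 * (δ / 2 * A.card) := by ring
      have h2 : δ / 4 * (δ / 2 * A.card) ≤ δ / 4 * A1.card :=
        mul_le_mul_of_nonneg_left e2 (by positivity)
      rw [h1]
      linarith
    have hc0 : 0 < c := by
      rw [hc]
      positivity
    calc δ ^ 6 / 8192 * (A.card * B.card) = δ / 8 * (δ ^ 2 / 8 * A.card) * c := by
          rw [hc]
          ring
      _ ≤ δ / 8 * A2.card * c := by
          apply mul_le_mul_of_nonneg_right _ hc0.le
          exact mul_le_mul_of_nonneg_left k5 (by positivity)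
      _ ≤ G.card * c := mul_le_mul_of_nonneg_right k3 hc0.le

end

open Classical in
open Pool.Agent.Helper81.XP in
/-- PTH -/
theorem st_PTH : ST_PTH := by
  refine ⟨8192, by norm_num, ?_⟩
  intro V A B R δ hδ hδ1 hA hB he
  have h0 : (((A ×ˢ B).filter (fun q => R q.1 q.2)).card : ℝ) =
      ∑ a ∈ A, ((B.filter fun b => R a b).card : ℝ) := by
    simp only [Finset.card_filter, Nat.cast_sum]
    rw [Finset.sum_product]
  rw [h0] at he
  obtain ⟨A', hA', B', hB', h1, h2, h3⟩ := pth_main R A B δ hδ hδ1 hA hB he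
  have hp2 : δ ^ 8192 ≤ δ ^ 2 := pow_le_pow_of_le_one hδ.le hδ1 (by norm_num)
  have hp6 : δ ^ 8192 ≤ δ ^ 6 := pow_le_pow_of_le_one hδ.le hδ1 (by norm_num)
  have hp1 : δ ^ 8192 ≤ δ := by
    have := pow_le_pow_of_le_one hδ.le hδ1 (show 1 ≤ 8192 by norm_num)
    rwa [pow_one] at this
  have hAc : (0 : ℝ) ≤ A.card := Nat.cast_nonneg _
  have hBc : (0 : ℝ) ≤ B.card := Nat.cast_nonneg _
  refine ⟨A', hA', B', hB', ?_, ?_, ?_⟩
  · have k1 : δ ^ 8192 * (A.card : ℝ) ≤ δ ^ 2 * A.card := mul_le_mul_of_nonneg_right hp2 hAc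
    have k2 : (0 : ℝ) ≤ A'.card := Nat.cast_nonneg _
    push_cast
    linarith
  · have k1 : δ ^ 8192 * (B.card : ℝ) ≤ δ * B.card := mul_le_mul_of_nonneg_right hp1 hBc
    have k2 : (0 : ℝ) ≤ B'.card := Nat.cast_nonneg _
    push_cast
    linarith
  · intro a ha b hb
    have k0 := h3 a ha b hb
    have k1 : δ ^ 8192 * ((A.card : ℝ) * B.card) ≤ δ ^ 6 * (A.card * B.card) :=
      mul_le_mul_of_nonneg_right hp6 (by positivity)
    have k2 : δ ^ 8192 * (A.card : ℝ) * B.card = δ ^ 8192 * ((A.card : ℝ) * B.card) := by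
      rw [mul_assoc]
    rw [k2]
    push_cast
    linarith

end Pool.Agent.Helper71.XP
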