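import Pool.Agent.Helper81.XP.StA

set_option autoImplicit false

/-!
XP, module STB: conjugates of a torus element commuting with a given element.
-/

namespace Pool.Agent.Helper71.XP

open Finset Pool.Agent.Helper81.XP

section

variable {F : Type} [Field F]

theorem stb_prop (b1 b2 b3 m1 m2 m3 : F) (h : b1 ≠ 0 ∨ b2 ≠ 0 ∨ b3 ≠ 0)
    (e12 : b1 * m2 = m1 * b2) (e13 : b1 * m3 = m1 * b3) (e23 : b2 * m3 = m2 * b3) :
    ∃ y : F, m1 = y * b1 ∧ m2 = y * b2 ∧ m3 = y * b3 := by
  rcases h with h | h | h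
  · refine ⟨m1 / b1, ?_, ?_, ?_⟩
    · field_simp
    · field_simp
      linear_combination e12
    · field_simp
      linear_combination e13
  · refine ⟨m2 / b2, ?_, ?_, ?_⟩
    · field_simp
      linear_combination -e12
    · field_simp
    · field_simp
      linear_combination e23
  · refine ⟨m3 / b3, ?_, ?_, ?_⟩
    · field_simp
      linear_combination -e13
    · field_simp
      linear_combination -e23
    · field_simp

theorem stb_comm (b m : SL F) (h : b * m = m * b)
    (hb : b.1 0 1 ≠ 0 ∨ b.1 1 0 ≠ 0 ∨ b.1 0 0 - b.1 1 1 ≠ 0) :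
    ∃ y : F, m.1 0 1 = y * b.1 0 1 ∧ m.1 1 0 = y * b.1 1 0 ∧
      m.1 0 0 - m.1 1 1 = y * (b.1 0 0 - b.1 1 1) := by
  have h1 : b.1 * m.1 = m.1 * b.1 := congrArg Subtype.val h
  have h00 := congrFun (congrFun h1 0) 0
  have h01 := congrFun (congrFun h1 0) 1
  have h10 := congrFun (congrFun h1 1) 0
  simp only [Matrix.mul_apply, Fin.sum_univ_two] at h00 h01 h10
  apply stb_prop _ _ _ _ _ _ hb
  · linear_combination h00
  · linear_combination -h01
  · linear_combination h10

theorem stb_det (m : SL F) : m.1 0 0 * m.1 1 1 - m.1 0 1 * m.1 1 0 = 1 := by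
  have := m.2
  rwa [Matrix.det_fin_two] at this

theorem stb_ext (m m' : SL F) (h1 : m.1 0 0 = m'.1 0 0) (h2 : m.1 0 1 = m'.1 0 1)
    (h3 : m.1 1 0 = m'.1 1 0) (h4 : m.1 1 1 = m'.1 1 1) : m = m' := by
  apply Subtype.ext
  ext i j
  fin_cases i <;> fin_cases j <;> assumption

theorem stb_tr (m : SL F) : tr m = m.1 0 0 + m.1 1 1 := by
  unfold tr
  exact Matrix.trace_fin_two _

/-- an element which is not `1` or `-1` is not scalar -/
theorem stb_ns (b : SL F) (h1 : b ≠ 1) (h2 : b ≠ -1) :
    b.1 0 1 ≠ 0 ∨ b.1 1 0 ≠ 0 ∨ b.1 0 0 - b.1 1 1 ≠ 0 := by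
  by_contra hcon
  push Not at hcon
  obtain ⟨k1, k2, k3⟩ := hcon
  have hd := stb_det b
  rw [k1, k2] at hd
  have k4 : b.1 0 0 = b.1 1 1 := sub_eq_zero.mp k3
  rw [k4] at hd
  have hd2 : (b.1 1 1 - 1) * (b.1 1 1 + 1) = 0 := by linear_combination hd
  rcases mul_eq_zero.mp hd2 with h | h
  · apply h1
    have h5 : b.1 1 1 = 1 := by linear_combination h
    apply stb_ext
    · rw [k4, h5]
      simp
    · rw [k1]
      simp
    · rw [k2]
      simp
    · rw [h5]
      simp
  · apply h2
    have h5 : b.1 1 1 = -1 := by linear_combination h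
    apply stb_ext
    · rw [k4, h5]
      simp
    · rw [k1]
      simp
    · rw [k2]
      simp
    · rw [h5]
      simp

/-- two elements of the commutant with the same trace -/
theorem stb_two (b m m' : SL F) (h1 : b ≠ 1) (h2 : b ≠ -1) (hm : b * m = m * b)
    (hm' : b * m' = m' * b) (ht : tr m = tr m') (ht4 : tr m ^ 2 ≠ 4) : m' = m ∨ m' = m⁻¹ := by
  obtain ⟨y, e1, e2, e3⟩ := stb_comm b m hm (stb_ns b h1 h2)
  obtain ⟨y', f1, f2, f3⟩ := stb_comm b m' hm' (stb_ns b h1 h2)
  have d := stb_det m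
  have d' := stb_det m'
  rw [stb_tr, stb_tr] at ht
  rw [stb_tr] at ht4
  set Δ := (b.1 0 0 - b.1 1 1) ^ 2 + 4 * b.1 0 1 * b.1 1 0 with hΔ
  have g : y ^ 2 * Δ = (m.1 0 0 + m.1 1 1) ^ 2 - 4 := by
    have : (m.1 0 0 - m.1 1 1) ^ 2 + 4 * (m.1 0 1 * m.1 1 0) = y ^ 2 * Δ := by
      rw [e1, e2, e3, hΔ]
      ring
    linear_combination -this - 4 * d
  have g' : y' ^ 2 * Δ = (m.1 0 0 + m.1 1 1) ^ 2 - 4 := by
    have : (m'.1 0 0 - m'.1 1 1) ^ 2 + 4 * (m'.1 0 1 * m'.1 1 0) = y' ^ 2 * Δ := by
      rw [f1, f2, f3, hΔ]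
      ring
    rw [ht]
    linear_combination -this - 4 * d'
  have hne : (m.1 0 0 + m.1 1 1) ^ 2 - 4 ≠ 0 := sub_ne_zero.mpr ht4
  have hΔ0 : Δ ≠ 0 := by
    intro h0
    rw [h0, mul_zero] at g
    exact hne g.symm
  have hyy : (y' - y) * (y' + y) = 0 := by
    have : (y' - y) * (y' + y) * Δ = 0 := by linear_combination g' - g
    rcases mul_eq_zero.mp this with h | h
    · exact h
    · exact absurd h hΔ0
  have inv00 : (m⁻¹).1 0 0 = m.1 1 1 := by
    rw [Matrix.SpecialLinearGroup.coe_inv, Matrix.adjugate_fin_two]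
    simp
  have inv01 : (m⁻¹).1 0 1 = -m.1 0 1 := by
    rw [Matrix.SpecialLinearGroup.coe_inv, Matrix.adjugate_fin_two]
    simp
  have inv10 : (m⁻¹).1 1 0 = -m.1 1 0 := by
    rw [Matrix.SpecialLinearGroup.coe_inv, Matrix.adjugate_fin_two]
    simp
  have inv11 : (m⁻¹).1 1 1 = m.1 0 0 := by
    rw [Matrix.SpecialLinearGroup.coe_inv, Matrix.adjugate_fin_two]
    simp
  have hroot : ∀ c : F, m'.1 0 1 * m'.1 1 0 = m.1 0 1 * m.1 1 0 →
      (m'.1 0 0 - m.1 0 0) * (m'.1 0 0 - m.1 1 1) = 0 := by
    intro _ hc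
    have h22 : m'.1 1 1 = m.1 0 0 + m.1 1 1 - m'.1 0 0 := by linear_combination -ht
    rw [h22] at d'
    linear_combination -d' + d - hc
  rcases mul_eq_zero.mp hyy with h | h
  · have hy : y' = y := by linear_combination h
    rw [hy] at f1 f2 f3
    have k1 : m'.1 0 1 = m.1 0 1 := by rw [f1, e1]
    have k2 : m'.1 1 0 = m.1 1 0 := by rw [f2, e2]
    rcases mul_eq_zero.mp (hroot 0 (by rw [k1, k2])) with h5 | h5
    · left
      apply stb_ext _ _ _ k1 k2
      · linear_combination -ht - h5
      · linear_combination h5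
    · have k3 : m'.1 0 0 = m.1 1 1 := by linear_combination h5
      have k4 : m'.1 1 1 = m.1 0 0 := by linear_combination -ht - k3
      have k5 : m'.1 0 0 - m'.1 1 1 = m.1 0 0 - m.1 1 1 := by rw [f3, e3]
      have k6 : (2 : F) * (m.1 0 0 - m.1 1 1) = 0 := by
        rw [k3, k4] at k5
        linear_combination -k5
      rcases mul_eq_zero.mp k6 with h6 | h6
      · right
        apply stb_ext
        · rw [inv00, k3]
        · rw [inv01, k1]
          linear_combination m.1 0 1 * h6
        · rw [inv10, k2]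
          linear_combination m.1 1 0 * h6
        · rw [inv11, k4]
      · left
        apply stb_ext _ _ _ k1 k2
        · rw [k4]
          linear_combination h6
        · rw [k3]
          linear_combination -h6
  · have hy : y' = -y := by linear_combination h
    rw [hy] at f1 f2 f3
    have k1 : m'.1 0 1 = -m.1 0 1 := by
      rw [f1, e1]
      ring
    have k2 : m'.1 1 0 = -m.1 1 0 := by
      rw [f2, e2]
      ring
    rcases mul_eq_zero.mp (hroot 0 (by rw [k1, k2]; ring)) with h5 | h5
    · have k3 : m'.1 0 0 = m.1 0 0 := by linear_combination h5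
      have k4 : m'.1 1 1 = m.1 1 1 := by linear_combination -ht - k3
      have k5 : m'.1 0 0 - m'.1 1 1 = -(m.1 0 0 - m.1 1 1) := by
        rw [f3, e3]
        ring
      have k6 : (2 : F) * (m.1 0 0 - m.1 1 1) = 0 := by
        rw [k3, k4] at k5
        linear_combination k5
      rcases mul_eq_zero.mp k6 with h6 | h6
      · left
        apply stb_ext _ _ k3 _ _ k4
        · rw [k1]
          linear_combination -m.1 0 1 * h6
        · rw [k2]
          linear_combination -m.1 1 0 * h6
      · right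
        apply stb_ext
        · rw [inv00, k3]
          linear_combination h6
        · rw [inv01, k1]
        · rw [inv10, k2]
        · rw [inv11, k4]
          linear_combination -h6
    · right
      apply stb_ext
      · rw [inv00]
        linear_combination h5
      · rw [inv01, k1]
      · rw [inv10, k2]
      · rw [inv11]
        linear_combination -ht - h5

open Classical in
/-- the centraliser of a non-scalar element -/
theorem stb_cent [Fintype F] (a : SL F) (h1 : a ≠ 1) (h2 : a ≠ -1) :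
    ((univ : Finset (SL F)).filter fun h => a * h = h * a).card ≤ 2 * Fintype.card F := by
  have hex : ∀ h : SL F, ∃ y : F, a * h = h * a → (h.1 0 1 = y * a.1 0 1 ∧
      h.1 1 0 = y * a.1 1 0 ∧ h.1 0 0 - h.1 1 1 = y * (a.1 0 0 - a.1 1 1)) := by
    intro h
    by_cases hc : a * h = h * a
    · obtain ⟨y, hy⟩ := stb_comm a h hc (stb_ns a h1 h2)
      exact ⟨y, fun _ => hy⟩
    · exact ⟨0, fun h' => absurd h' hc⟩
  choose f hf using hex
  set S := (univ : Finset (SL F)).filter fun h => a * h = h * a with hS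
  have hfib : ∀ y ∈ S.image f, (S.filter fun h => f h = y).card ≤ 2 := by
    intro y hy
    obtain ⟨h0, hh0, hy0⟩ := Finset.mem_image.mp hy
    have c0 := hf h0 (Finset.mem_filter.mp hh0).2
    rw [hy0] at c0
    have hsub : ((S.filter fun h => f h = y).image fun h => h.1 0 0) ⊆
        {h0.1 0 0, -h0.1 1 1} := by
      intro u hu
      obtain ⟨h, hh, rfl⟩ := Finset.mem_image.mp hu
      have hh1 : h ∈ S := (Finset.mem_filter.mp hh).1
      have hh2 : f h = y := (Finset.mem_filter.mp hh).2
      have c := hf h (Finset.mem_filter.mp hh1).2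
      rw [hh2] at c
      have d := stb_det h
      have d0 := stb_det h0
      rw [c.1, c.2.1] at d
      rw [c0.1, c0.2.1] at d0
      have e : h.1 1 1 = h.1 0 0 - y * (a.1 0 0 - a.1 1 1) := by linear_combination -c.2.2
      have e0 : h0.1 1 1 = h0.1 0 0 - y * (a.1 0 0 - a.1 1 1) := by linear_combination -c0.2.2
      have key : (h.1 0 0 - h0.1 0 0) * (h.1 0 0 + h0.1 1 1) = 0 := by
        rw [e] at d
        rw [e0] at d0 ⊢
        linear_combination d - d0
      rw [Finset.mem_insert, Finset.mem_singleton]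
      rcases mul_eq_zero.mp key with h5 | h5
      · left
        linear_combination h5
      · right
        linear_combination h5
    have hinj : Set.InjOn (fun h : SL F => h.1 0 0) (S.filter fun h => f h = y) := by
      intro h hh h' hh' heq
      have hh1 : h ∈ S := (Finset.mem_filter.mp hh).1
      have hh2 : f h = y := (Finset.mem_filter.mp hh).2
      have hh1' : h' ∈ S := (Finset.mem_filter.mp hh').1
      have hh2' : f h' = y := (Finset.mem_filter.mp hh').2
      have c := hf h (Finset.mem_filter.mp hh1).2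
      have c' := hf h' (Finset.mem_filter.mp hh1').2
      rw [hh2] at c
      rw [hh2'] at c'
      have heq' : h.1 0 0 = h'.1 0 0 := heq
      apply stb_ext _ _ heq'
      · rw [c.1, c'.1]
      · rw [c.2.1, c'.2.1]
      · linear_combination heq' - c.2.2 + c'.2.2
    rw [← Finset.card_image_of_injOn hinj]
    exact (Finset.card_le_card hsub).trans Finset.card_le_two
  have := Finset.card_le_mul_card_image S 2 hfib
  refine this.trans ?_
  apply Nat.mul_le_mul_left
  exact Finset.card_le_univ _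

open Classical in
/-- elements conjugating `a` to `m` -/
theorem stb_conj [Fintype F] (a m : SL F) (h1 : a ≠ 1) (h2 : a ≠ -1) :
    ((univ : Finset (SL F)).filter fun g => g * a * g⁻¹ = m).card ≤ 2 * Fintype.card F := by
  by_cases hne : ((univ : Finset (SL F)).filter fun g => g * a * g⁻¹ = m).Nonempty
  · obtain ⟨g0, hg0⟩ := hne
    have e0 : g0 * a * g0⁻¹ = m := (Finset.mem_filter.mp hg0).2
    refine le_trans ?_ (stb_cent a h1 h2)
    refine Finset.card_le_card_of_injOn (fun g => g0⁻¹ * g) ?_ ?_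
    · intro g hg
      have e : g * a * g⁻¹ = m := (Finset.mem_filter.mp (Finset.mem_coe.mp hg)).2
      refine Finset.mem_coe.mpr (Finset.mem_filter.mpr ⟨Finset.mem_univ _, ?_⟩)
      have e2 : g * a * g⁻¹ = g0 * a * g0⁻¹ := by rw [e, e0]
      have e3 : g * a = g0 * a * g0⁻¹ * g := by
        rw [← e2]
        group
      show a * (g0⁻¹ * g) = g0⁻¹ * g * a
      rw [mul_assoc g0⁻¹ g a, e3]
      group
    · intro g _ g' _ h
      exact mul_left_cancel h
  · rw [Finset.not_nonempty_iff_eq_empty] at hne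
    rw [hne]
    simp

theorem stb_ex [Fintype F] (a m : SL F) (h1 : a ≠ 1) (h2 : a ≠ -1) :
    ∃ T : Finset (SL F), T.card ≤ 2 * Fintype.card F ∧ ∀ g, g * a * g⁻¹ = m → g ∈ T := by
  classical
  exact ⟨_, stb_conj a m h1 h2, fun g hg => Finset.mem_filter.mpr ⟨Finset.mem_univ _, hg⟩⟩

end

open Classical in
/-- STB -/
theorem st_STB : ST_STB := by
  intro p _ a b ha hb1 hb2
  have ha1 : a ≠ 1 := by
    intro h
    apply ha
    rw [h, stb_tr]
    simp
    norm_num
  have ha2 : a ≠ -1 := by
    intro h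
    apply ha
    rw [h, stb_tr]
    simp
    norm_num
  set S := (univ : Finset (SL (ZMod p))).filter
    (fun g => b * (g * a * g⁻¹) = (g * a * g⁻¹) * b) with hS
  have htr : ∀ g : SL (ZMod p), tr (g * a * g⁻¹) = tr a := by
    intro g
    unfold tr
    rw [Matrix.SpecialLinearGroup.coe_mul, Matrix.trace_mul_comm,
      ← Matrix.SpecialLinearGroup.coe_mul]
    have : g⁻¹ * (g * a) = a := by group
    rw [this]
  by_cases hne : S.Nonempty
  · obtain ⟨g0, hg0⟩ := hne
    set m := g0 * a * g0⁻¹ with hm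
    have hbm : b * m = m * b := (Finset.mem_filter.mp hg0).2
    obtain ⟨T1, k1, t1⟩ := stb_ex a m ha1 ha2
    obtain ⟨T2, k2, t2⟩ := stb_ex a m⁻¹ ha1 ha2
    have hsub : S ⊆ T1 ∪ T2 := by
      intro g hg
      have hbg : b * (g * a * g⁻¹) = g * a * g⁻¹ * b := (Finset.mem_filter.mp hg).2
      have h4 : tr m ^ 2 ≠ 4 := by
        rw [hm, htr]
        exact ha
      rcases stb_two b m (g * a * g⁻¹) hb1 hb2 hbm hbg (by rw [hm, htr, htr]) h4 with h | h
      · exact Finset.mem_union_left _ (t1 g h)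
      · exact Finset.mem_union_right _ (t2 g h)
    rw [ZMod.card] at k1 k2
    refine (Finset.card_le_card hsub).trans ((Finset.card_union_le _ _).trans ?_)
    omega
  · rw [Finset.not_nonempty_iff_eq_empty] at hne
    rw [hne]
    simp

end Pool.Agent.Helper71.XP
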